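import Pool.Agent.Lib.MP_2e793b_nt.Iface

/-!
MP_2e793b_nt: MAIN, the assembly.
-/

set_option autoImplicit false

namespace Pool.Agent.Lib.MP_2e793b_nt.H10

open Finset

theorem map_blk {α β : Type} (τ : α → β) (zy : List (List α × List α)) (m : ℕ) :
    blk (zy.map (fun q => (q.1.map τ, q.2.map τ))) m = (blk zy m).map τ := by
  unfold blk
  rw [List.flatMap_map, List.map_flatMap]
  congr 1
  funext q
  simp [List.map_flatten]

theorem map_nf {α β : Type} (τ : α → β) (z0 : List α) (zy : List (List α × List α)) (M : ℕ) :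
    nf (z0.map τ) (zy.map (fun q => (q.1.map τ, q.2.map τ))) M = (nf z0 zy M).map τ := by
  unfold nf
  rw [List.map_append, List.map_flatMap]
  congr 2
  funext m
  exact map_blk τ zy m

theorem length_blk {α : Type} (zy : List (List α × List α)) (m : ℕ) :
    (blk zy m).length = len1 zy + len2 zy * m := by
  unfold blk len1 len2
  induction zy with
  | nil => simp
  | cons q t ih =>
    simp only [List.flatMap_cons, List.length_append, List.map_cons, List.sum_cons, ih]
    simp only [List.length_flatten, List.map_replicate, List.sum_replicate, smul_eq_mul]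
    ring

theorem len1_map {α β : Type} (τ : α → β) (zy : List (List α × List α)) :
    len1 (zy.map (fun q => (q.1.map τ, q.2.map τ))) = len1 zy := by
  unfold len1
  simp [Function.comp_def]

theorem len2_map {α β : Type} (τ : α → β) (zy : List (List α × List α)) :
    len2 (zy.map (fun q => (q.1.map τ, q.2.map τ))) = len2 zy := by
  unfold len2
  simp [Function.comp_def]

/-- the first letter -/
theorem sigma_head {k : ℕ} (σ : Fin k → List (Fin k)) (a : Fin k) (u : ℕ → Fin k)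
    (h1 : ∀ (n i : ℕ) (x : Fin k), ((F σ)^[n] [a])[i]? = some x → u i = x)
    (h2 : ∀ m : ℕ, ∃ n : ℕ, m < ((F σ)^[n] [a]).length) : ∃ w, σ a = a :: w := by
  have hu : u 0 = a := h1 0 0 a (by simp)
  have hF : (F σ)^[1] [a] = σ a := by simp [F]
  cases hσ : σ a with
  | nil =>
    exfalso
    obtain ⟨n, hn⟩ := h2 1
    have key : ∀ n : ℕ, ((F σ)^[n] [a]).length ≤ 1 := by
      intro n
      cases n with
      | zero => simp
      | succ n =>
        have : (F σ)^[n + 1] [a] = [] := by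
          rw [Function.iterate_succ_apply]
          have e : F σ [a] = [] := by simp [F, hσ]
          rw [e]
          clear hn h1 h2
          induction n with
          | zero => rfl
          | succ n ih =>
            rw [Function.iterate_succ_apply']
            rw [ih]
            rfl
        rw [this]
        simp
    exact absurd hn (not_lt.2 (key n))
  | cons x w =>
    have : u 0 = x := h1 1 0 x (by rw [hF, hσ]; simp)
    rw [hu] at this
    exact ⟨w, by rw [this]⟩

theorem pre_iter {k : ℕ} (σ : Fin k → List (Fin k)) (l₁ l₂ : List (Fin k)) (n : ℕ)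
    (h : l₁ <+: l₂) : (F σ)^[n] l₁ <+: (F σ)^[n] l₂ := by
  obtain ⟨t, rfl⟩ := h
  have : ∀ (n : ℕ) (a b : List (Fin k)), (F σ)^[n] (a ++ b) = (F σ)^[n] a ++ (F σ)^[n] b := by
    intro n
    induction n with
    | zero => intro a b; rfl
    | succ n ih =>
      intro a b
      rw [Function.iterate_succ_apply, Function.iterate_succ_apply, Function.iterate_succ_apply]
      rw [← ih]
      congr 1
      simp [F]
  rw [this]
  exact List.prefix_append _ _

theorem mono_len {k : ℕ} (σ : Fin k → List (Fin k)) (a : Fin k) (w : List (Fin k))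
    (h : σ a = a :: w) : Monotone (fun n : ℕ => ((F σ)^[n] [a]).length) := by
  apply monotone_nat_of_le_succ
  intro n
  have h1 : [a] <+: F σ [a] := by simp [F, h]
  have := pre_iter σ _ _ n h1
  rw [← Function.iterate_succ_apply] at this
  exact this.length_le

theorem rep_le (n : ℕ) : rep n ≤ (n + 1) ^ 2 := by
  unfold rep prs
  calc _ ≤ (range (n + 1) ×ˢ range (n + 1)).card := Finset.card_filter_le _ _
    _ = (n + 1) ^ 2 := by rw [Finset.card_product, Finset.card_range]; ring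

theorem wt_per {b T : ℕ} {C : ℕ → ℤ} (hC : ∀ u, C (u + T) = C u) (u : ℕ) :
    wt b T C (u + T) = wt b T C u := by
  unfold wt
  have : (u + T) ^ 2 % T = u ^ 2 % T := by
    have : (u + T) ^ 2 = u ^ 2 + T * (2 * u + T) := by ring
    rw [this, Nat.add_mul_mod_self_left]
  rw [hC, this]

theorem per_mul {T : ℕ} {α : Type} {C : ℕ → α} (hC : ∀ u, C (u + T) = C u) (u n : ℕ) :
    C (u + T * n) = C u := by
  induction n with
  | zero => simp
  | succ n ih => rw [Nat.mul_succ, ← add_assoc, hC, ih]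

theorem exists_big (b T : ℕ) (hb : 2 ≤ b) : ∃ H₀ : ℕ, ∀ H : ℕ, H₀ ≤ H →
    ((H ^ 2 + 1) ^ 2) ^ (4 * T) ≤ b ^ H := by
  have h1 : Filter.Tendsto (fun n : ℕ => ((n : ℝ) ^ (24 * T)) / (2 : ℝ) ^ n) Filter.atTop
      (nhds 0) := tendsto_pow_const_div_const_pow_of_one_lt (24 * T) (by norm_num)
  have h2 := (h1.eventually (gt_mem_nhds (show (0 : ℝ) < 1 by norm_num)))
  obtain ⟨H₀, hH₀⟩ := Filter.eventually_atTop.1 h2
  refine ⟨max H₀ 2, fun H hH => ?_⟩
  have hH1 : H₀ ≤ H := le_trans (le_max_left _ _) hH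
  have hH2 : 2 ≤ H := le_trans (le_max_right _ _) hH
  have h3 := hH₀ H hH1
  rw [div_lt_one (by positivity)] at h3
  have h4 : H ^ (24 * T) < 2 ^ H := by exact_mod_cast h3
  have h5 : (H ^ 2 + 1) ^ 2 ≤ H ^ 6 := by
    have : H ^ 2 + 1 ≤ H ^ 3 := by nlinarith [Nat.pow_le_pow_left hH2 2, hH2, sq_nonneg H]
    calc (H ^ 2 + 1) ^ 2 ≤ (H ^ 3) ^ 2 := Nat.pow_le_pow_left this 2
      _ = H ^ 6 := by ring
  calc ((H ^ 2 + 1) ^ 2) ^ (4 * T) ≤ (H ^ 6) ^ (4 * T) := Nat.pow_le_pow_left h5 _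
    _ = H ^ (24 * T) := by rw [← pow_mul]; ring_nf
    _ ≤ 2 ^ H := h4.le
    _ ≤ b ^ H := Nat.pow_le_pow_left hb _

theorem main (hNf : NfStmt) (hDig : DigStmt) (hCanon : CanonStmt) (hW : WindowStmt)
    (hMz : MzStmt) (hDil : DilStmt) (hGp : GpStmt) : MainStmt := by
  rintro b ξ hb hirr ⟨α, β, γ, hα, hαβγ⟩ ⟨k, σ, a, u, τ, h1, h2, ⟨K, h3⟩, h4⟩
  obtain ⟨w, hw⟩ := sigma_head σ a u h1 h2
  obtain ⟨z0, zy, N, hN, hnf⟩ := hNf k σ a w K hw h3
  set d : ℕ → ℤ := fun i => τ (u i) with hd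
  have hb0 : (0 : ℤ) < b := by exact_mod_cast (by omega : 0 < b)
  have hdr : ∀ n, 0 ≤ d n ∧ d n < b := by
    intro n
    simp only [hd, h4]
    exact ⟨Int.emod_nonneg _ hb0.ne', Int.emod_lt_of_pos _ hb0⟩
  have hpre : ∀ (M i : ℕ) (x : ℤ), (nf (z0.map τ)
      (zy.map (fun q => (q.1.map τ, q.2.map τ))) M)[i]? = some x → d i = x := by
    intro M i x hx
    rw [map_nf, List.getElem?_map] at hx
    cases hy : (nf z0 zy M)[i]? with
    | none => rw [hy] at hx; simp at hx
    | some y =>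
      rw [hy] at hx
      simp only [Option.map_some, Option.some.injEq] at hx
      rw [← hnf M] at hy
      have := h1 (N M) i y hy
      simp only [hd, this, hx]
  have hlen : 1 ≤ len1 (zy.map (fun q => (q.1.map τ, q.2.map τ))) +
      len2 (zy.map (fun q => (q.1.map τ, q.2.map τ))) := by
    rw [len1_map, len2_map]
    by_contra hcon
    have e1 : len1 zy = 0 := by omega
    have e2 : len2 zy = 0 := by omega
    obtain ⟨n, hn⟩ := h2 z0.length
    have hm := mono_len σ a w hw (hN n)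
    have h5 : ((F σ)^[N n] [a]).length = z0.length := by
      rw [hnf n]
      unfold nf
      rw [List.length_append, List.length_flatMap]
      have : (List.map (fun a => (blk zy a).length) (List.range n)).sum = 0 := by
        apply List.sum_eq_zero
        intro x hx
        rw [List.mem_map] at hx
        obtain ⟨m, _, hm⟩ := hx
        rw [← hm, length_blk, e1, e2]
        simp
      omega
    simp only at hm
    rw [h5] at hm
    exact absurd hn (not_lt.2 hm)
  obtain ⟨T, hT, D, R, C, hD, hC, hsum⟩ := hCanon b _ _ d hb hdr hpre hlen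
  have hx0 : (∑' n : ℕ, (d n : ℝ) / (b : ℝ) ^ (n + 1)) = ξ - ⌊ξ⌋ := by
    have := (hDig b ξ hb).tsum_eq
    rw [← this]
    apply tsum_congr
    intro n
    simp only [hd, h4]
  rw [hx0] at hsum
  set x : ℝ := (D : ℝ) * (ξ - ⌊ξ⌋) - R with hx
  have hDξ : (D : ℝ) * ξ = x + ((R + D * ⌊ξ⌋ : ℤ) : ℝ) := by
    rw [hx]; push_cast; ring
  set R' : ℤ := R + D * ⌊ξ⌋ with hR'
  have hDr : (D : ℝ) ≠ 0 := by exact_mod_cast hD
  have hquad : (α : ℝ) * x ^ 2 + ((2 * α * R' + β * D : ℤ) : ℝ) * x +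
      ((α * R' ^ 2 + β * D * R' + γ * D ^ 2 : ℤ) : ℝ) = 0 := by
    have hxe : x = D * ξ - R' := by rw [hDξ]; ring
    have : (D : ℝ) ^ 2 * ((α : ℝ) * ξ ^ 2 + β * ξ + γ) = 0 := by rw [hαβγ, mul_zero]
    rw [hxe]
    push_cast
    linear_combination this
  -- the coefficients are not all zero
  have hC0 : ∃ u₀, C u₀ ≠ 0 := by
    by_contra hcon
    push Not at hcon
    have : x = 0 := by
      have h6 : HasSum (fun u : ℕ => (C u : ℝ) / (b : ℝ) ^ (u ^ 2 / T)) 0 := by
        have : (fun u : ℕ => (C u : ℝ) / (b : ℝ) ^ (u ^ 2 / T)) = fun _ => 0 := by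
          funext u; simp [hcon u]
        rw [this]
        exact hasSum_zero
      exact hsum.unique h6
    rw [this, zero_add] at hDξ
    apply hirr
    refine ⟨(R' : ℚ) / D, ?_⟩
    push_cast
    rw [div_eq_iff hDr, ← hDξ]
    ring
  obtain ⟨u₀, hu₀⟩ := hC0
  set w' : ℕ → ℝ := fun u => wt b T C ((T - 1) * u) with hw'
  have hwper : ∀ u, wt b T C (u + T) = wt b T C u := wt_per hC
  have hw'per : ∀ u, w' (u + T) = w' u := by
    intro u
    simp only [hw']
    rw [mul_add, mul_comm (T - 1) T, per_mul hwper]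
  have hw'ne : ∃ u, w' u ≠ 0 := by
    refine ⟨(T - 1) * u₀, ?_⟩
    simp only [hw']
    have e : (T - 1) * ((T - 1) * u₀) + T * (2 * u₀) = u₀ + T * (T * u₀) := by
      obtain ⟨t, rfl⟩ := Nat.exists_eq_add_of_le' hT
      simp only [Nat.add_sub_cancel]
      ring
    have e2 : wt b T C ((T - 1) * ((T - 1) * u₀)) = wt b T C u₀ := by
      rw [← per_mul hwper _ (2 * u₀), e, per_mul hwper]
    rw [e2]
    unfold wt
    have hbp : (0 : ℝ) < b := by exact_mod_cast (by omega : 0 < b)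
    exact mul_ne_zero (by exact_mod_cast hu₀) (Real.rpow_pos_of_pos hbp _).ne'
  obtain ⟨K', hK'⟩ := hW b T C α (2 * α * R' + β * D) (α * R' ^ 2 + β * D * R' + γ * D ^ 2) x
    hb hT hC hα hsum hquad
  obtain ⟨H₀, hH₀⟩ := hGp T b hT hb
  obtain ⟨N₀, hN₀⟩ := hMz T w' hT hw'per hw'ne
  obtain ⟨H₁, hH₁⟩ := exists_big b T hb
  set H : ℕ := max (max K' H₀) (max (max N₀ H₁) 1) with hH
  have g1 : K' ≤ H := le_trans (le_max_left _ _) (le_max_left _ _)
  have g2 : H₀ ≤ H := le_trans (le_max_right _ _) (le_max_left _ _)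
  have g3 : N₀ ≤ H := le_trans (le_trans (le_max_left _ _) (le_max_left _ _)) (le_max_right _ _)
  have g4 : H₁ ≤ H := le_trans (le_trans (le_max_right _ _) (le_max_left _ _)) (le_max_right _ _)
  have g5 : 1 ≤ H := le_trans (le_max_right _ _) (le_max_right _ _)
  have g6 : N₀ ≤ H ^ 2 := le_trans g3 (by nlinarith)
  obtain ⟨m, hm1, hm2, hm3, hm4⟩ := hN₀ (H ^ 2) g6
  have hm5 : ∀ h : ℕ, 0 < h → h ≤ H → ¬ IsSquare (h * m) := fun h h0 hh =>
    hm4 h h0 (Nat.pow_le_pow_left hh 2)
  obtain ⟨q, hq, hqT, hqH, hq1, hq2⟩ := hH₀ H g2 m hm1 hm2 hm5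
  obtain ⟨hdil, hrep⟩ := hDil T m q (wt b T C) hT hm1 hq hqT hwper
  have hnsq : ¬ IsSquare (m * q ^ 2) := by
    rintro ⟨s, hs⟩
    have hq0 : q ≠ 0 := hq.ne_zero
    have hdvd : q ∣ s := by
      have : q ^ 2 ∣ s ^ 2 := ⟨m, by rw [sq s, ← hs]; ring⟩
      exact (Nat.pow_dvd_pow_iff (by norm_num)).1 this
    obtain ⟨t, rfl⟩ := hdvd
    apply hm5 1 one_pos g5
    refine ⟨t, ?_⟩
    have : m * q ^ 2 = (t * t) * q ^ 2 := by rw [hs]; ring
    rw [one_mul]
    exact Nat.eq_of_mul_eq_mul_right (by positivity) this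
  have hfin := hK' (m * q ^ 2) H g1 hqH hq1 hnsq hq2 (by
    rw [hrep]
    calc rep m ^ (4 * T) ≤ ((m + 1) ^ 2) ^ (4 * T) := Nat.pow_le_pow_left (rep_le m) _
      _ ≤ ((H ^ 2 + 1) ^ 2) ^ (4 * T) := by
          apply Nat.pow_le_pow_left
          apply Nat.pow_le_pow_left
          omega
      _ ≤ b ^ H := hH₁ H g4)
  rw [hdil] at hfin
  exact hm3 hfin

end Pool.Agent.Lib.MP_2e793b_nt.H10
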