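import Pool.Agent.Lib.MP_2e793b_nt.H10.Sqf

/-!
MP_2e793b_nt: SQC.
-/

set_option autoImplicit false

namespace Pool.Agent.Lib.MP_2e793b_nt.H10

open Finset Filter
open scoped Classical

theorem sqc_asym (δ : ℝ) (hδ : 0 < δ) : ∃ L₀ : ℝ, 1 < L₀ ∧ ∀ L : ℝ, L₀ ≤ L →
    Real.exp (L / 2) + 3 * Real.log L ^ 6 * (2 * Real.exp L / L ^ 2 + Real.exp (L / 2)) +
      Real.exp L / L ^ (1 + δ) ≤ Real.exp L / L ^ (1 + min δ (1 / 2) / 2) := by
  set d : ℝ := min δ (1 / 2) / 2 with hd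
  have hm0 : 0 < min δ (1 / 2) := lt_min hδ (by norm_num)
  have hd0 : 0 < d := by positivity
  have hd1 : d ≤ 1 / 4 := by
    have := min_le_right δ (1 / 2)
    rw [hd]; linarith
  have hd2 : d < δ := by
    have := min_le_left δ (1 / 2)
    rw [hd]; linarith
  have e1 : ∀ᶠ L : ℝ in atTop, 18 * Real.log L ^ 6 ≤ L ^ (1 / 2 : ℝ) := by
    have h := (isLittleO_log_rpow_rpow_atTop (s := 1 / 2) 6 (by norm_num)).bound
      (show (0 : ℝ) < 1 / 18 by norm_num)
    filter_upwards [h, eventually_ge_atTop (1 : ℝ)] with L h1 h2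
    have h3 : 0 ≤ Real.log L := Real.log_nonneg h2
    rw [Real.norm_of_nonneg (by positivity), Real.norm_of_nonneg (by positivity)] at h1
    have h4 : Real.log L ^ (6 : ℝ) = Real.log L ^ 6 := by
      rw [← Real.rpow_natCast]; norm_num
    rw [h4] at h1
    linarith
  have e2 : ∀ᶠ L : ℝ in atTop, 3 ≤ L ^ (δ - d) :=
    (tendsto_rpow_atTop (by linarith)).eventually_ge_atTop 3
  have e3 : ∀ᶠ L : ℝ in atTop, 12 * L ^ 3 ≤ Real.exp (L / 2) := by
    have h1 : Tendsto (fun L : ℝ => Real.exp (L / 2) / (L / 2) ^ 3) atTop atTop :=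
      (Real.tendsto_exp_div_pow_atTop 3).comp (tendsto_id.atTop_div_const (by norm_num))
    filter_upwards [h1.eventually_ge_atTop 96, eventually_gt_atTop (0 : ℝ)] with L h2 h3
    rw [le_div_iff₀ (by positivity)] at h2
    nlinarith
  obtain ⟨L₀, hL₀⟩ := eventually_atTop.1 ((e1.and e2).and e3)
  refine ⟨max L₀ 2, lt_of_lt_of_le (by norm_num) (le_max_right _ _), fun L hL => ?_⟩
  obtain ⟨⟨h1, h2⟩, h3⟩ := hL₀ L (le_trans (le_max_left _ _) hL)
  have hL2 : 2 ≤ L := le_trans (le_max_right _ _) hL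
  have hL0 : 0 < L := by linarith
  have hE : Real.exp L = Real.exp (L / 2) * Real.exp (L / 2) := by
    rw [← Real.exp_add]; congr 1; ring
  set G := Real.exp (L / 2) with hG
  have hG0 : 0 < G := Real.exp_pos _
  have hlog0 : 0 ≤ Real.log L := Real.log_nonneg (by linarith)
  set M : ℝ := L ^ (1 + d) with hM
  have hM0 : 0 < M := Real.rpow_pos_of_pos hL0 _
  have hML2 : M ≤ L ^ 2 := by
    rw [hM, ← Real.rpow_natCast]
    apply Real.rpow_le_rpow_of_exponent_le (by linarith)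
    push_cast
    linarith
  -- the three terms
  have t1 : Real.exp L / L ^ (1 + δ) ≤ (1 / 3) * (Real.exp L / M) := by
    have : L ^ (1 + δ) = L ^ (δ - d) * M := by
      rw [hM, ← Real.rpow_add hL0]; congr 1; ring
    rw [this]
    rw [div_le_iff₀ (by positivity)]
    have e : (1 / 3) * (Real.exp L / M) * (L ^ (δ - d) * M) = Real.exp L * (L ^ (δ - d) / 3) := by
      field_simp
    rw [e]
    have : 1 ≤ L ^ (δ - d) / 3 := by linarith
    nlinarith [Real.exp_pos L]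
  have t2 : 3 * Real.log L ^ 6 * (2 * Real.exp L / L ^ 2) ≤ (1 / 3) * (Real.exp L / M) := by
    have hlog6 : 18 * Real.log L ^ 6 * M ≤ L ^ 2 := by
      calc 18 * Real.log L ^ 6 * M ≤ L ^ (1 / 2 : ℝ) * M := by gcongr
        _ = L ^ (1 / 2 + (1 + d)) := by rw [hM, ← Real.rpow_add hL0]
        _ ≤ L ^ (2 : ℝ) := by
            apply Real.rpow_le_rpow_of_exponent_le (by linarith)
            linarith
        _ = L ^ 2 := by norm_num
    have e : 3 * Real.log L ^ 6 * (2 * Real.exp L / L ^ 2) =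
        (1 / 3) * (Real.exp L / M) * ((18 * Real.log L ^ 6 * M) / L ^ 2) := by
      field_simp
      ring
    rw [e]
    have : (18 * Real.log L ^ 6 * M) / L ^ 2 ≤ 1 := by
      rw [div_le_one (by positivity)]; exact hlog6
    have hp : 0 ≤ (1 / 3) * (Real.exp L / M) := by positivity
    nlinarith
  have t3 : G + 3 * Real.log L ^ 6 * G ≤ (1 / 3) * (Real.exp L / M) := by
    have hlog : Real.log L ^ 6 ≤ L := by
      have : L ^ (1 / 2 : ℝ) ≤ L ^ (1 : ℝ) :=
        Real.rpow_le_rpow_of_exponent_le (by linarith) (by norm_num)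
      rw [Real.rpow_one] at this
      have h6 : 0 ≤ Real.log L ^ 6 := by positivity
      linarith
    have hk : 3 * (1 + 3 * L) * M ≤ G := by
      calc 3 * (1 + 3 * L) * M ≤ 3 * (1 + 3 * L) * L ^ 2 := by gcongr
        _ ≤ 12 * L ^ 3 := by nlinarith [sq_nonneg L]
        _ ≤ G := h3
    have e : (1 / 3) * (Real.exp L / M) = G * (G / (3 * M)) := by
      rw [hE]; field_simp
    rw [e]
    have : 1 + 3 * L ≤ G / (3 * M) := by
      rw [le_div_iff₀ (by positivity)]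
      linarith
    calc G + 3 * Real.log L ^ 6 * G = G * (1 + 3 * Real.log L ^ 6) := by ring
      _ ≤ G * (1 + 3 * L) := by gcongr
      _ ≤ G * (G / (3 * M)) := by gcongr
  calc G + 3 * Real.log L ^ 6 * (2 * Real.exp L / L ^ 2 + G) + Real.exp L / L ^ (1 + δ)
      = (G + 3 * Real.log L ^ 6 * G) + 3 * Real.log L ^ 6 * (2 * Real.exp L / L ^ 2) +
        Real.exp L / L ^ (1 + δ) := by ring
    _ ≤ (1 / 3) * (Real.exp L / M) + (1 / 3) * (Real.exp L / M) + (1 / 3) * (Real.exp L / M) :=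
        add_le_add (add_le_add t3 t2) t1
    _ = Real.exp L / M := by ring

theorem sqc (hS : SievStmt) (hL : LocStmt) (hF : SqfStmt) : SqcStmt := by
  obtain ⟨B, X₁, δ, hB, hδ, hsv⟩ := hS
  obtain ⟨L₀, hL₀1, hasym⟩ := sqc_asym δ hδ
  have hX₂ : ∃ X₂ : ℕ, ∀ X : ℕ, X₂ ≤ X → L₀ ≤ Real.log X ∧ 2 ≤ Real.log X := by
    have h1 : Tendsto (fun n : ℕ => Real.log (n : ℝ)) atTop atTop :=
      Real.tendsto_log_atTop.comp tendsto_natCast_atTop_atTop
    obtain ⟨X₂, hX₂⟩ := eventually_atTop.1 (h1.eventually_ge_atTop (max L₀ 2))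
    exact ⟨X₂, fun X hX => ⟨le_trans (le_max_left _ _) (hX₂ X hX),
      le_trans (le_max_right _ _) (hX₂ X hX)⟩⟩
  obtain ⟨X₂, hX₂⟩ := hX₂
  refine ⟨min δ (1 / 2) / 2, max (max X₁ X₂) 1,
    by have : 0 < min δ (1 / 2) := lt_min hδ (by norm_num); positivity, ?_⟩
  intro X m h hX hm hh hsq hlog
  have hXX₁ : X₁ ≤ X := le_trans (le_trans (le_max_left _ _) (le_max_left _ _)) hX
  have hXX₂ : X₂ ≤ X := le_trans (le_trans (le_max_right _ _) (le_max_left _ _)) hX
  have hX1 : 1 ≤ X := le_trans (le_max_right _ _) hX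
  obtain ⟨hLL, hL2⟩ := hX₂ X hXX₂
  set L := Real.log X with hLdef
  have hXpos : (0 : ℝ) < X := by exact_mod_cast (by omega : 0 < X)
  have hexp : Real.exp L = X := Real.exp_log hXpos
  have hmpos : (m : ℤ) ≠ 0 := by exact_mod_cast (by omega : m ≠ 0)
  set a : ℤ := h * m with ha
  have ha0 : a ≠ 0 := mul_ne_zero hh hmpos
  have haabs : (a.natAbs : ℝ) = m * h.natAbs := by
    rw [ha, Int.natAbs_mul, Int.natAbs_natCast]; push_cast; ring
  set y := yy X with hy
  set z := zz B X with hz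
  set Ω : ℕ → Finset ℕ := fun l => if PP a l then
    (range l).filter (fun x : ℕ => (l : ℤ) ∣ m * (x : ℤ) ^ 2 + h) else {0} with hΩ
  have hcount := hsv X a Ω hXX₁ ha0 hsq (by rw [haabs]; linarith) (by
    intro l hl _ _
    by_cases hp : PP a l
    · simp only [hΩ, hp, if_true]
      refine ⟨fun r hr => Finset.mem_range.1 (Finset.mem_filter.1 hr).1, fun _ => ?_,
        fun h => (h trivial).elim⟩
      have := (hL a m l h ha hm hp).1
      convert this using 2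
    · simp only [hΩ, hp, if_false]
      refine ⟨fun r hr => by rw [Finset.mem_singleton.1 hr]; exact hl.pos,
        fun h => h.elim, fun _ => Finset.card_singleton 0⟩)
  have hy1 : 1 ≤ y := by
    rw [hy, yy]
    exact Nat.le_floor (by push_cast; nlinarith)
  have hsqf := hF m X y z h hm hh hy1 hX1
  have hsub : (Icc 1 X).filter (fun q : ℕ => q.Prime ∧
      ∃ u v : ℕ, ((u ^ 2 + v ^ 2 : ℕ) : ℤ) = m * (q : ℤ) ^ 2 + h) ⊆
      (Icc 1 z ∪ (Icc 1 X).filter (fun q : ℕ => ∃ l : ℕ, l.Prime ∧ y < l ∧ l ≤ z ∧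
        ((l ^ 2 : ℕ) : ℤ) ∣ m * (q : ℤ) ^ 2 + h)) ∪ (range (X + 1)).filter
          (fun q => ∀ l : ℕ, l.Prime → yy X < l → l ≤ zz B X → q % l ∉ Ω l) := by
    intro q hq
    rw [Finset.mem_filter] at hq
    obtain ⟨hq1, hqp, u, v, huv⟩ := hq
    rw [Finset.mem_union, Finset.mem_union]
    by_cases hqz : q ≤ z
    · exact Or.inl (Or.inl (Finset.mem_Icc.2 ⟨hqp.one_lt.le, hqz⟩))
    by_cases hex : ∃ l : ℕ, l.Prime ∧ y < l ∧ l ≤ z ∧ ((l ^ 2 : ℕ) : ℤ) ∣ m * (q : ℤ) ^ 2 + h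
    · exact Or.inl (Or.inr (Finset.mem_filter.2 ⟨hq1, hex⟩))
    · right
      rw [Finset.mem_filter, Finset.mem_range]
      refine ⟨by have := (Finset.mem_Icc.1 hq1).2; omega, ?_⟩
      intro l hl hly hlz hmem
      by_cases hp : PP a l
      · simp only [hΩ, hp, if_true] at hmem
        have h1 := (Finset.mem_filter.1 hmem).2
        have h2 : (l : ℤ) ∣ m * (q : ℤ) ^ 2 + h := by
          have e1 : ((q % l : ℕ) : ℤ) ≡ q [ZMOD l] := by
            rw [Int.natCast_mod]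
            exact Int.mod_modEq _ _
          have e2 : (m : ℤ) * ((q % l : ℕ) : ℤ) ^ 2 + h ≡ m * (q : ℤ) ^ 2 + h [ZMOD l] :=
            ((e1.pow 2).mul_left _).add_right _
          exact (Int.modEq_zero_iff_dvd).1 (e2.symm.trans ((Int.modEq_zero_iff_dvd).2 h1))
        exact hex ⟨l, hl, hly, hlz, (hL a m l h ha hm hp).2 q u v huv h2⟩
      · simp only [hΩ, hp, if_false, Finset.mem_singleton] at hmem
        have h1 : l ∣ q := Nat.dvd_of_mod_eq_zero hmem
        have h2 := (Nat.prime_dvd_prime_iff_eq hl hqp).1 h1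
        omega
  have hcard := Finset.card_le_card hsub
  have hcard2 : ((Icc 1 X).filter (fun q : ℕ => q.Prime ∧
      ∃ u v : ℕ, ((u ^ 2 + v ^ 2 : ℕ) : ℤ) = m * (q : ℤ) ^ 2 + h)).card ≤
      (z + ((Icc 1 X).filter (fun q : ℕ => ∃ l : ℕ, l.Prime ∧ y < l ∧ l ≤ z ∧
        ((l ^ 2 : ℕ) : ℤ) ∣ m * (q : ℤ) ^ 2 + h)).card) + ((range (X + 1)).filter
          (fun q => ∀ l : ℕ, l.Prime → yy X < l → l ≤ zz B X → q % l ∉ Ω l)).card := by
    refine hcard.trans ((Finset.card_union_le _ _).trans ?_)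
    apply Nat.add_le_add_right
    refine (Finset.card_union_le _ _).trans ?_
    rw [Nat.card_Icc]
    omega
  have hzb : (z : ℝ) ≤ Real.exp (L / 2) := by
    have h1 : (z : ℝ) ≤ (X : ℝ) ^ ((1 : ℝ) / B) := by
      rw [hz, zz]
      exact Nat.floor_le (by positivity)
    refine h1.trans ?_
    rw [Real.rpow_def_of_pos hXpos, ← hLdef]
    apply Real.exp_le_exp.2
    have hB2 : (2 : ℝ) ≤ B := by exact_mod_cast hB
    rw [mul_one_div]
    exact div_le_div_of_nonneg_left (by linarith) (by norm_num) hB2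
  have hyb : (X : ℝ) / y ≤ 2 * Real.exp L / L ^ 2 := by
    have h1 : L ^ 2 / 2 ≤ y := by
      have : L ^ 2 < y + 1 := by
        rw [hy, yy]
        exact Nat.lt_floor_add_one _
      nlinarith
    rw [hexp]
    rw [div_le_div_iff₀ (by exact_mod_cast (by omega : 0 < y)) (by positivity)]
    nlinarith
  have h12 : 12 * (m : ℝ) * h.natAbs ≤ 3 * Real.log L ^ 6 := by linarith
  have hfin : (((Icc 1 X).filter (fun q : ℕ => q.Prime ∧
      ∃ u v : ℕ, ((u ^ 2 + v ^ 2 : ℕ) : ℤ) = m * (q : ℤ) ^ 2 + h)).card : ℝ) ≤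
      (z + 12 * m * h.natAbs * (X / y + z)) + X / L ^ (1 + δ) := by
    have h1 : (((Icc 1 X).filter (fun q : ℕ => q.Prime ∧
      ∃ u v : ℕ, ((u ^ 2 + v ^ 2 : ℕ) : ℤ) = m * (q : ℤ) ^ 2 + h)).card : ℝ) ≤
      ((z : ℝ) + (((Icc 1 X).filter (fun q : ℕ => ∃ l : ℕ, l.Prime ∧ y < l ∧ l ≤ z ∧
        ((l ^ 2 : ℕ) : ℤ) ∣ m * (q : ℤ) ^ 2 + h)).card : ℝ)) + (((range (X + 1)).filter
          (fun q => ∀ l : ℕ, l.Prime → yy X < l → l ≤ zz B X → q % l ∉ Ω l)).card : ℝ) := by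
      exact_mod_cast hcard2
    linarith
  refine hfin.trans ?_
  have hA := hasym L hLL
  rw [hexp] at hA
  rw [hexp] at hyb
  have hlog6 : 0 ≤ Real.log L ^ 6 := by positivity
  calc (z + 12 * m * h.natAbs * (X / y + z)) + X / L ^ (1 + δ)
      ≤ (Real.exp (L / 2) + 3 * Real.log L ^ 6 * (2 * X / L ^ 2 + Real.exp (L / 2))) +
        X / L ^ (1 + δ) := by
        gcongr
    _ ≤ X / L ^ (1 + min δ (1 / 2) / 2) := hA

end Pool.Agent.Lib.MP_2e793b_nt.H10
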