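import Pool.Agent.Lib.MP_2e793b_nt.Iface

/-!
MP_2e793b_nt: SQF.
-/

set_option autoImplicit false

namespace Pool.Agent.Lib.MP_2e793b_nt.H10

open Finset
open scoped Classical

/-- the number of `q ≤ X` in a set of residues modulo `d` -/
theorem card_le_mod (X d : ℕ) (hd : 1 ≤ d) (P : ℕ → Prop) [DecidablePred P] (hP : ∀ q, P q → P (q % d)) :
    ((Icc 1 X).filter P).card ≤ ((range d).filter P).card * (X / d + 1) := by
  have h1 : ((Icc 1 X).filter P).card ≤ (((range d).filter P) ×ˢ (range (X / d + 1))).card := by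
    apply Finset.card_le_card_of_injOn (fun q => (q % d, q / d))
    · intro q hq
      rw [Finset.mem_coe, Finset.mem_filter, Finset.mem_Icc] at hq
      rw [Finset.mem_coe, Finset.mem_product, Finset.mem_filter, Finset.mem_range,
        Finset.mem_range]
      refine ⟨⟨Nat.mod_lt _ (by omega), hP q hq.2⟩, ?_⟩
      have : q / d ≤ X / d := Nat.div_le_div_right hq.1.2
      simp only
      omega
    · intro q _ q' _ h
      simp only [Prod.mk.injEq] at h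
      rw [← Nat.mod_add_div q d, ← Nat.mod_add_div q' d, h.1, h.2]
  rw [Finset.card_product, Finset.card_range] at h1
  exact h1

theorem dvd_mod (m d : ℕ) (h : ℤ) (q : ℕ) (hq : (d : ℤ) ∣ m * (q : ℤ) ^ 2 + h) :
    (d : ℤ) ∣ m * ((q % d : ℕ) : ℤ) ^ 2 + h := by
  have h1 : ((q % d : ℕ) : ℤ) ≡ q [ZMOD d] := by
    rw [Int.natCast_mod]
    exact Int.mod_modEq _ _
  have h2 : (m : ℤ) * ((q % d : ℕ) : ℤ) ^ 2 + h ≡ m * (q : ℤ) ^ 2 + h [ZMOD d] :=
    ((h1.pow 2).mul_left _).add_right _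
  exact (Int.modEq_zero_iff_dvd).1 (h2.trans ((Int.modEq_zero_iff_dvd).2 hq))

theorem sum_inv_sq (y z : ℕ) (hy : 1 ≤ y) :
    ∑ l ∈ Ioc y z, (1 : ℝ) / (l : ℝ) ^ 2 ≤ 1 / y := by
  have key : ∀ z : ℕ, y ≤ z → ∑ l ∈ Ioc y z, (1 : ℝ) / (l : ℝ) ^ 2 ≤ 1 / y - 1 / z := by
    intro z hz
    induction z, hz using Nat.le_induction with
    | base => simp
    | succ n hn ih =>
      rw [Finset.sum_Ioc_succ_top (by omega)]
      have hn0 : (0 : ℝ) < n := by exact_mod_cast (by omega : 0 < n)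
      have : (1 : ℝ) / ((n + 1 : ℕ) : ℝ) ^ 2 ≤ 1 / n - 1 / ((n + 1 : ℕ) : ℝ) := by
        push_cast
        rw [div_sub_div _ _ hn0.ne' (by positivity), div_le_div_iff₀ (by positivity) (by positivity)]
        nlinarith
      linarith
  rcases le_total y z with h | h
  · have h1 := key z h
    have h2 : (0 : ℝ) ≤ 1 / z := by positivity
    linarith
  · rw [Finset.Ioc_eq_empty (by omega)]
    simp

theorem sqf (hR : RootsStmt) : SqfStmt := by
  intro m X y z h hm hh hy hX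
  set Q : ℕ → ℕ → Prop := fun l q => ((l ^ 2 : ℕ) : ℤ) ∣ m * (q : ℤ) ^ 2 + h with hQ
  have hsub : (Icc 1 X).filter (fun q : ℕ => ∃ l : ℕ, l.Prime ∧ y < l ∧ l ≤ z ∧
      ((l ^ 2 : ℕ) : ℤ) ∣ m * (q : ℤ) ^ 2 + h) ⊆
      ((Ioc y z).filter Nat.Prime).biUnion (fun l => (Icc 1 X).filter (Q l)) := by
    intro q hq
    rw [Finset.mem_filter] at hq
    obtain ⟨h1, l, hl, h2, h3, h4⟩ := hq
    rw [Finset.mem_biUnion]
    exact ⟨l, Finset.mem_filter.2 ⟨Finset.mem_Ioc.2 ⟨h2, h3⟩, hl⟩, Finset.mem_filter.2 ⟨h1, h4⟩⟩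
  have hone : ∀ l ∈ (Ioc y z).filter Nat.Prime, (((Icc 1 X).filter (Q l)).card : ℝ) ≤
      12 * m * h.natAbs * (X * (1 / (l : ℝ) ^ 2) + 1) := by
    intro l hl
    rw [Finset.mem_filter] at hl
    have hlp : l.Prime := hl.2
    have hl1 : 1 ≤ l ^ 2 := Nat.one_le_pow _ _ hlp.pos
    have h1 := card_le_mod X (l ^ 2) hl1 (Q l) (fun q hq => dvd_mod m (l ^ 2) h q hq)
    have h2 := hR m (l ^ 2) h hm hl1 hh
    have h3 : (l ^ 2).divisors.card = 3 := by
      rw [Nat.divisors_prime_pow hlp]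
      simp
    rw [h3] at h2
    have h4 : ((Icc 1 X).filter (Q l)).card ≤ 4 * m * h.natAbs * 3 * (X / l ^ 2 + 1) :=
      h1.trans (Nat.mul_le_mul_right _ h2)
    have h5 : (((X / l ^ 2 : ℕ)) : ℝ) ≤ X * (1 / (l : ℝ) ^ 2) := by
      have := @Nat.cast_div_le ℝ _ _ _ X (l ^ 2)
      rw [mul_one_div]
      exact_mod_cast this
    calc (((Icc 1 X).filter (Q l)).card : ℝ)
        ≤ ((4 * m * h.natAbs * 3 * (X / l ^ 2 + 1) : ℕ) : ℝ) := by exact_mod_cast h4
      _ = 12 * m * h.natAbs * ((X / l ^ 2 : ℕ) + 1) := by push_cast; ring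
      _ ≤ 12 * m * h.natAbs * (X * (1 / (l : ℝ) ^ 2) + 1) := by gcongr
  calc (((Icc 1 X).filter (fun q : ℕ => ∃ l : ℕ, l.Prime ∧ y < l ∧ l ≤ z ∧
      ((l ^ 2 : ℕ) : ℤ) ∣ m * (q : ℤ) ^ 2 + h)).card : ℝ)
      ≤ ((((Ioc y z).filter Nat.Prime).biUnion (fun l => (Icc 1 X).filter (Q l))).card : ℝ) := by
        exact_mod_cast Finset.card_le_card hsub
    _ ≤ ((∑ l ∈ (Ioc y z).filter Nat.Prime, ((Icc 1 X).filter (Q l)).card : ℕ) : ℝ) := by
        exact_mod_cast Finset.card_biUnion_le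
    _ ≤ ∑ l ∈ (Ioc y z).filter Nat.Prime, 12 * m * h.natAbs * (X * (1 / (l : ℝ) ^ 2) + 1) := by
        push_cast
        exact Finset.sum_le_sum hone
    _ ≤ ∑ l ∈ Ioc y z, 12 * m * h.natAbs * (X * (1 / (l : ℝ) ^ 2) + 1) := by
        apply Finset.sum_le_sum_of_subset_of_nonneg (Finset.filter_subset _ _)
        intro l _ _
        positivity
    _ = 12 * m * h.natAbs * (X * ∑ l ∈ Ioc y z, 1 / (l : ℝ) ^ 2 + ((z - y : ℕ) : ℝ)) := by
        rw [← Finset.mul_sum, Finset.sum_add_distrib, ← Finset.mul_sum]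
        simp
    _ ≤ 12 * m * h.natAbs * (X * (1 / y) + z) := by
        have h6 := sum_inv_sq y z hy
        have h7 : ((z - y : ℕ) : ℝ) ≤ z := by exact_mod_cast Nat.sub_le z y
        gcongr
    _ = 12 * m * h.natAbs * (X / y + z) := by rw [mul_one_div]

end Pool.Agent.Lib.MP_2e793b_nt.H10
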