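import Pool.Agent.Lib.MP_2e793b_nt.Iface

/-!
MP_2e793b_nt: TAIL.
-/

set_option autoImplicit false

namespace Pool.Agent.Lib.MP_2e793b_nt.H10

open Finset
open scoped Classical

/-- the base of the geometric series -/
noncomputable def bet (T b : ℕ) : ℝ := (b : ℝ) ^ (1 / (8 * T : ℝ))

theorem bet_pow {T b : ℕ} (hT : 1 ≤ T) (hb : 2 ≤ b) : bet T b ^ (8 * T) = b := by
  unfold bet
  rw [← Real.rpow_natCast, ← Real.rpow_mul (by positivity)]
  have : (1 / (8 * T : ℝ)) * ((8 * T : ℕ) : ℝ) = 1 := by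
    have : (T : ℝ) ≠ 0 := by exact_mod_cast (by omega : T ≠ 0)
    push_cast
    field_simp
  rw [this, Real.rpow_one]

theorem one_lt_bet {T b : ℕ} (hT : 1 ≤ T) (hb : 2 ≤ b) : 1 < bet T b := by
  unfold bet
  apply Real.one_lt_rpow
  · exact_mod_cast (by omega : 1 < b)
  · have : (0 : ℝ) < T := by exact_mod_cast (by omega : 0 < T)
    positivity

theorem tau_big {T b h n : ℕ} (hT : 1 ≤ T) (hb : 2 ≤ b) (hn : 1 ≤ n) (hR : ReptStmt)
    (hlt : b ^ h < rep n ^ (4 * T)) : bet T b ^ h < 4 * (n.divisors.card : ℝ) := by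
  have h1 : rep n ^ (4 * T) ≤ (4 * n.divisors.card) ^ (8 * T) := by
    calc rep n ^ (4 * T) ≤ (16 * n.divisors.card ^ 2) ^ (4 * T) := Nat.pow_le_pow_left (hR n hn) _
      _ = ((4 * n.divisors.card) ^ 2) ^ (4 * T) := by congr 1; ring
      _ = (4 * n.divisors.card) ^ (8 * T) := by rw [← pow_mul]; congr 1; ring
  have h2 : b ^ h < (4 * n.divisors.card) ^ (8 * T) := lt_of_lt_of_le hlt h1
  have h3 : ((b : ℝ)) ^ h < (4 * (n.divisors.card : ℝ)) ^ (8 * T) := by exact_mod_cast h2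
  have h4 : (bet T b ^ h) ^ (8 * T) < (4 * (n.divisors.card : ℝ)) ^ (8 * T) := by
    rw [← pow_mul, mul_comm h, pow_mul, bet_pow hT hb]
    exact h3
  exact lt_of_pow_lt_pow_left₀ _ (by positivity) h4

theorem log_add_le {m X h : ℕ} (hm : 1 ≤ m) (hX : 1 ≤ X) (hh : 1 ≤ h) :
    1 + Real.log (m * X + h) ≤ (2 + Real.log (m * X)) * h := by
  have hm' : (1 : ℝ) ≤ m := by exact_mod_cast hm
  have hX' : (1 : ℝ) ≤ X := by exact_mod_cast hX
  have hh' : (1 : ℝ) ≤ h := by exact_mod_cast hh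
  have hmX : (1 : ℝ) ≤ m * X := by nlinarith
  have h1 : (m * X + h : ℝ) ≤ 2 * (m * X) * h := by nlinarith
  have h2 : Real.log (m * X + h) ≤ Real.log 2 + Real.log (m * X) + Real.log h := by
    rw [← Real.log_mul (by norm_num) (by positivity), ← Real.log_mul (by positivity) (by positivity)]
    exact Real.log_le_log (by positivity) h1
  have h3 : Real.log 2 ≤ 1 := by
    have := Real.log_two_lt_d9
    linarith
  have h4 : Real.log h ≤ h - 1 := Real.log_le_sub_one_of_pos (by positivity)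
  have h5 : 0 ≤ Real.log (m * X) := Real.log_nonneg hmX
  nlinarith

/-- the number of `q` for one `h` -/
theorem one_h (hD : DivavgStmt) {m X h : ℕ} (hm : 1 ≤ m) (hX : 1 ≤ X) (hh : 1 ≤ h) {z : ℝ}
    (hz : 0 < z) :
    (((Icc 1 X).filter (fun q : ℕ => z < 4 * ((m * q ^ 2 + h).divisors.card : ℝ))).card : ℝ) ≤
      96 * (m : ℝ) ^ 2 * X * (2 + Real.log (m * X)) ^ 2 * ((h : ℝ) ^ 4 / z) := by
  have h1 := hD m h X hm hh hX
  have h2 : (((Icc 1 X).filter
      (fun q : ℕ => z < 4 * ((m * q ^ 2 + h).divisors.card : ℝ))).card : ℝ) * z ≤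
      4 * ((∑ q ∈ Icc 1 X, (m * q ^ 2 + h).divisors.card : ℕ) : ℝ) := by
    rw [← nsmul_eq_mul, ← Finset.sum_const]
    calc _ ≤ ∑ q ∈ (Icc 1 X).filter
          (fun q : ℕ => z < 4 * ((m * q ^ 2 + h).divisors.card : ℝ)),
          4 * ((m * q ^ 2 + h).divisors.card : ℝ) := by
            apply Finset.sum_le_sum
            intro q hq
            exact (Finset.mem_filter.1 hq).2.le
      _ ≤ ∑ q ∈ Icc 1 X, 4 * ((m * q ^ 2 + h).divisors.card : ℝ) := by
            apply Finset.sum_le_sum_of_subset_of_nonneg (Finset.filter_subset _ _)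
            intro q _ _
            positivity
      _ = 4 * ((∑ q ∈ Icc 1 X, (m * q ^ 2 + h).divisors.card : ℕ) : ℝ) := by
            push_cast
            rw [Finset.mul_sum]
  have h3 := log_add_le hm hX hh
  have h4 : 0 ≤ 1 + Real.log (m * X + h) := by
    have hm' : (1 : ℝ) ≤ m := by exact_mod_cast hm
    have hX' : (1 : ℝ) ≤ X := by exact_mod_cast hX
    have : 0 ≤ Real.log (m * X + h) := Real.log_nonneg (by nlinarith [(Nat.cast_nonneg h : (0 : ℝ) ≤ h)])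
    linarith
  have h5 : (1 + Real.log (m * X + h)) ^ 2 ≤ ((2 + Real.log (m * X)) * h) ^ 2 :=
    pow_le_pow_left₀ h4 h3 2
  rw [mul_div_assoc', le_div_iff₀ hz]
  refine h2.trans ?_
  calc 4 * ((∑ q ∈ Icc 1 X, (m * q ^ 2 + h).divisors.card : ℕ) : ℝ)
      ≤ 4 * (24 * (m : ℝ) ^ 2 * (h : ℝ) ^ 2 * X * (1 + Real.log (m * X + h)) ^ 2) := by linarith
    _ ≤ 4 * (24 * (m : ℝ) ^ 2 * (h : ℝ) ^ 2 * X * ((2 + Real.log (m * X)) * h) ^ 2) := by
        gcongr
    _ = 96 * (m : ℝ) ^ 2 * X * (2 + Real.log (m * X)) ^ 2 * (h : ℝ) ^ 4 := by ring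

theorem tail (hD : DivavgStmt) (hR : ReptStmt) : TailStmt := by
  intro T b hT hb
  set β := bet T b with hβ
  have hβ1 : 1 < β := one_lt_bet hT hb
  set γ : ℝ := (Real.sqrt β)⁻¹ with hγ
  have hs1 : 1 < Real.sqrt β := by
    rw [show (1 : ℝ) = Real.sqrt 1 by simp]
    exact Real.sqrt_lt_sqrt (by norm_num) hβ1
  have hγ0 : 0 < γ := by positivity
  have hγ1 : γ < 1 := inv_lt_one_of_one_lt₀ hs1
  have hβγ : β * γ ^ 2 = 1 := by
    rw [hγ, inv_pow, Real.sq_sqrt (by linarith)]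
    exact mul_inv_cancel₀ (by linarith)
  -- `h^4 ≤ C₂ γ^{-h}`
  have hbd : ∃ C₂ : ℝ, 0 < C₂ ∧ ∀ h : ℕ, (h : ℝ) ^ 4 * γ ^ h ≤ C₂ := by
    have h1 : Filter.Tendsto (fun n : ℕ => (n : ℝ) ^ 4 * γ ^ n) Filter.atTop (nhds 0) :=
      tendsto_pow_const_mul_const_pow_of_lt_one 4 hγ0.le hγ1
    obtain ⟨C, hC⟩ := h1.bddAbove_range
    refine ⟨|C| + 1, by positivity, fun h => ?_⟩
    have := hC ⟨h, rfl⟩
    simp only at this
    linarith [le_abs_self C]
  obtain ⟨C₂, hC₂, hbd⟩ := hbd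
  set lam : ℝ := -Real.log γ with hlam
  have hlam0 : 0 < lam := by
    rw [hlam]
    have := Real.log_neg hγ0 hγ1
    linarith
  set C₃ : ℝ := C₂ / (1 - γ) with hC₃
  have hC₃0 : 0 < C₃ := div_pos hC₂ (by linarith)
  -- the threshold
  have hX₀ : ∃ X₀ : ℕ, ∀ X : ℕ, X₀ ≤ X → 3 ≤ Real.log X ∧ 96 * 16 * C₃ ≤ Real.log X ^ 2 := by
    have h1 : Filter.Tendsto (fun n : ℕ => Real.log (n : ℝ)) Filter.atTop Filter.atTop :=
      Real.tendsto_log_atTop.comp tendsto_natCast_atTop_atTop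
    obtain ⟨X₀, hX₀⟩ := Filter.eventually_atTop.1
      (h1.eventually_ge_atTop (max 3 (96 * 16 * C₃)))
    refine ⟨X₀, fun X hX => ?_⟩
    have := hX₀ X hX
    have a1 := le_trans (le_max_left _ _) this
    have a2 := le_trans (le_max_right _ _) this
    exact ⟨a1, by nlinarith⟩
  obtain ⟨X₀, hX₀⟩ := hX₀
  refine ⟨8 / lam, max X₀ 1, by positivity, ?_⟩
  intro X H m hX hm hmX hH
  obtain ⟨hL3, hL⟩ := hX₀ X (le_trans (le_max_left _ _) hX)
  have hX1 : 1 ≤ X := le_trans (le_max_right _ _) hX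
  set L := Real.log X with hLdef
  have hL0 : 0 < L := by linarith
  set S := (Icc 1 X).filter (fun q : ℕ => ∃ h : ℕ, H < h ∧ b ^ h < rep (m * q ^ 2 + h) ^ (4 * T))
    with hS
  -- a bound for the witnesses
  have hM : ∃ M : ℕ, ∀ q ∈ S, ∃ h : ℕ, H < h ∧ h ≤ M ∧ b ^ h < rep (m * q ^ 2 + h) ^ (4 * T) := by
    have h1 : ∀ q ∈ S, ∃ h : ℕ, H < h ∧ b ^ h < rep (m * q ^ 2 + h) ^ (4 * T) := by
      intro q hq
      exact (Finset.mem_filter.1 hq).2
    choose! f hf using h1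
    refine ⟨S.sup f, fun q hq => ⟨f q, (hf q hq).1, Finset.le_sup hq, (hf q hq).2⟩⟩
  obtain ⟨M, hM⟩ := hM
  have hsub : S ⊆ (Ioc H M).biUnion (fun h => (Icc 1 X).filter
      (fun q : ℕ => β ^ h < 4 * ((m * q ^ 2 + h).divisors.card : ℝ))) := by
    intro q hq
    obtain ⟨h, h1, h2, h3⟩ := hM q hq
    rw [Finset.mem_biUnion]
    refine ⟨h, Finset.mem_Ioc.2 ⟨h1, h2⟩, Finset.mem_filter.2 ⟨(Finset.mem_filter.1 hq).1, ?_⟩⟩
    exact tau_big hT hb (by omega) hR h3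
  set P : ℝ := 96 * (m : ℝ) ^ 2 * X * (2 + Real.log (m * X)) ^ 2 with hP
  have hP0 : 0 ≤ P := by positivity
  have hc1 : (S.card : ℝ) ≤ ∑ h ∈ Ioc H M, P * ((h : ℝ) ^ 4 / β ^ h) := by
    calc (S.card : ℝ) ≤ (((Ioc H M).biUnion (fun h => (Icc 1 X).filter
          (fun q : ℕ => β ^ h < 4 * ((m * q ^ 2 + h).divisors.card : ℝ)))).card : ℝ) := by
            exact_mod_cast Finset.card_le_card hsub
      _ ≤ ((∑ h ∈ Ioc H M, ((Icc 1 X).filter
          (fun q : ℕ => β ^ h < 4 * ((m * q ^ 2 + h).divisors.card : ℝ))).card : ℕ) : ℝ) := by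
            exact_mod_cast Finset.card_biUnion_le
      _ ≤ ∑ h ∈ Ioc H M, P * ((h : ℝ) ^ 4 / β ^ h) := by
            push_cast
            apply Finset.sum_le_sum
            intro h hh
            exact one_h hD hm hX1 (by have := (Finset.mem_Ioc.1 hh).1; omega) (by positivity)
  -- the geometric sum
  have hterm : ∀ h : ℕ, (h : ℝ) ^ 4 / β ^ h ≤ C₂ * γ ^ h := by
    intro h
    have hβ0 : 0 < β := by linarith
    rw [div_le_iff₀ (by positivity)]
    have e : γ ^ h * γ ^ h * β ^ h = 1 := by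
      rw [← mul_pow, ← mul_pow, show γ * γ * β = β * γ ^ 2 by ring, hβγ, one_pow]
    calc (h : ℝ) ^ 4 = ((h : ℝ) ^ 4 * γ ^ h) * (γ ^ h * β ^ h) := by
          rw [mul_assoc, ← mul_assoc (γ ^ h), e, mul_one]
      _ ≤ C₂ * (γ ^ h * β ^ h) := by
          apply mul_le_mul_of_nonneg_right (hbd h) (by positivity)
      _ = C₂ * γ ^ h * β ^ h := by ring
  have hgeo : ∑ h ∈ Ioc H M, γ ^ h ≤ γ ^ H / (1 - γ) := by
    have hsum : Summable (fun i : ℕ => γ ^ H * γ ^ i) :=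
      (summable_geometric_of_lt_one hγ0.le hγ1).mul_left _
    have h1 : ∑ h ∈ Ioc H M, γ ^ h ≤ ∑' i : ℕ, γ ^ H * γ ^ i := by
      have h2 : ∑ h ∈ Ioc H M, γ ^ h = ∑ i ∈ (Ioc H M).image (fun h => h - H), γ ^ H * γ ^ i := by
        rw [Finset.sum_image]
        · apply Finset.sum_congr rfl
          intro h hh
          rw [Finset.mem_Ioc] at hh
          rw [← pow_add]
          congr 1
          omega
        · intro x hx y hy hxy
          rw [Finset.mem_coe, Finset.mem_Ioc] at hx hy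
          simp only at hxy
          omega
      rw [h2]
      exact hsum.sum_le_tsum _ (fun i _ => by positivity)
    rw [tsum_mul_left, tsum_geometric_of_lt_one hγ0.le hγ1] at h1
    rw [div_eq_mul_inv]
    exact h1
  have hc2 : (S.card : ℝ) ≤ P * (C₃ * γ ^ H) := by
    calc (S.card : ℝ) ≤ ∑ h ∈ Ioc H M, P * ((h : ℝ) ^ 4 / β ^ h) := hc1
      _ ≤ ∑ h ∈ Ioc H M, P * (C₂ * γ ^ h) := by
          apply Finset.sum_le_sum
          intro h _
          exact mul_le_mul_of_nonneg_left (hterm h) hP0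
      _ = P * (C₂ * ∑ h ∈ Ioc H M, γ ^ h) := by rw [← Finset.mul_sum, ← Finset.mul_sum]
      _ ≤ P * (C₂ * (γ ^ H / (1 - γ))) := by gcongr
      _ = P * (C₃ * γ ^ H) := by rw [hC₃]; ring
  -- `γ^H ≤ (log X)^{-8}`
  have hγH : γ ^ H ≤ (L ^ 8)⁻¹ := by
    have h1 : (γ : ℝ) ^ H = Real.exp (-(lam * H)) := by
      have e : γ ^ H = Real.exp (Real.log γ) ^ H := by rw [Real.exp_log hγ0]
      rw [e, ← Real.exp_nat_mul, hlam]
      congr 1
      ring
    have h2 : 8 * Real.log L ≤ lam * H := by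
      have := mul_le_mul_of_nonneg_left hH hlam0.le
      have e : lam * (8 / lam * Real.log L) = 8 * Real.log L := by
        field_simp
      rw [← e]
      exact this
    rw [h1]
    have h3 : (L ^ 8)⁻¹ = Real.exp (-(8 * Real.log L)) := by
      rw [Real.exp_neg]
      congr 1
      rw [mul_comm, Real.exp_mul, Real.exp_log hL0]
      norm_num
    rw [h3]
    exact Real.exp_le_exp.2 (by linarith)
  have hPb : P ≤ 96 * 16 * L ^ 4 * X := by
    have hm1 : (1 : ℝ) ≤ m := by exact_mod_cast hm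
    have hX1' : (1 : ℝ) ≤ X := by exact_mod_cast hX1
    have h1 : Real.log (m * X) ≤ 2 * L := by
      rw [Real.log_mul (by positivity) (by positivity)]
      have : Real.log m ≤ m - 1 := Real.log_le_sub_one_of_pos (by positivity)
      linarith
    have h0 : 0 ≤ Real.log (m * X) := Real.log_nonneg (by nlinarith)
    have h2 : (2 + Real.log (m * X)) ^ 2 ≤ (4 * L) ^ 2 := by
      apply pow_le_pow_left₀ (by linarith)
      linarith
    have h3 : (m : ℝ) ^ 2 ≤ L ^ 2 := pow_le_pow_left₀ (by positivity) hmX 2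
    calc P = 96 * ((m : ℝ) ^ 2 * (2 + Real.log (m * X)) ^ 2) * X := by rw [hP]; ring
      _ ≤ 96 * (L ^ 2 * (4 * L) ^ 2) * X := by gcongr
      _ = 96 * 16 * L ^ 4 * X := by ring
  calc (S.card : ℝ) ≤ P * (C₃ * γ ^ H) := hc2
    _ ≤ (96 * 16 * L ^ 4 * X) * (C₃ * (L ^ 8)⁻¹) := by gcongr
    _ = (96 * 16 * C₃) * (X / L ^ 4) := by
        field_simp
    _ ≤ L ^ 2 * (X / L ^ 4) := by gcongr
    _ = X / L ^ 2 := by
        field_simp

end Pool.Agent.Lib.MP_2e793b_nt.H10
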